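import Mathlib
import Pool.Agent.Helper35.TSqMain

set_option autoImplicit false

namespace Pool.Agent.Results.MP_ac14a7_nt.SquareType

open Polynomial Filter

/-- The naive height of an integer polynomial: the maximum absolute value of its coefficients. -/
noncomputable def height (P : ℤ[X]) : ℕ := P.support.sup (fun i => (P.coeff i).natAbs)

/-- `P` is the minimal polynomial over `ℤ` of the real number `α`: irreducible, primitive,
with positive leading coefficient, vanishing at `α`. -/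
def IsMinPolyZ (P : ℤ[X]) (α : ℝ) : Prop :=
  Irreducible P ∧ P.IsPrimitive ∧ 0 < P.leadingCoeff ∧ aeval α P = 0

/-- Mahler's exponent `w_n(ξ)`, in the extended reals. -/
noncomputable def wMahler (ξ : ℝ) (n : ℕ) : EReal :=
  sSup {W : EReal | ∃ w : ℝ, W = (w : EReal) ∧
    {P : ℤ[X] | P.natDegree ≤ n ∧ 0 < |aeval ξ P| ∧
      |aeval ξ P| ≤ (height P : ℝ) ^ (-w)}.Infinite}

/-- Koksma's exponent `w_n^*(ξ)`, in the extended reals. -/
noncomputable def wKoksma (ξ : ℝ) (n : ℕ) : EReal :=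
  sSup {W : EReal | ∃ w : ℝ, W = (w : EReal) ∧
    {α : ℝ | ∃ P : ℤ[X], IsMinPolyZ P α ∧ P.natDegree ≤ n ∧ 0 < |ξ - α| ∧
      |ξ - α| ≤ (height P : ℝ) ^ (-w - 1)}.Infinite}

/-- A real S-number: transcendental with `limsup w_n(ξ) / n < ∞`. -/
def IsSNumber (ξ : ℝ) : Prop :=
  Transcendental ℚ ξ ∧ limsup (fun n : ℕ => wMahler ξ n / (n : EReal)) atTop < ⊤

/-- The type `t(ξ) = limsup (w_n(ξ) + 1) / (n + 1)`. -/
noncomputable def mahlerType (ξ : ℝ) : EReal :=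
  limsup (fun n : ℕ => (wMahler ξ n + 1) / ((n : EReal) + 1)) atTop

/-- The *-type `t^*(ξ) = limsup (w_n^*(ξ) + 1) / (n + 1)`. -/
noncomputable def koksmaType (ξ : ℝ) : EReal :=
  limsup (fun n : ℕ => (wKoksma ξ n + 1) / ((n : EReal) + 1)) atTop

theorem ratio_coe (a : ℝ) (n : ℕ) :
    ((a : EReal) + 1) / ((n : EReal) + 1) = (((a + 1) / ((n : ℝ) + 1) : ℝ) : EReal) := by
  rw [EReal.coe_div]
  push_cast
  rfl

theorem n_nonneg (n : ℕ) : (0 : EReal) ≤ (n : EReal) + 1 := by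
  have : (0 : EReal) ≤ (n : EReal) := by exact_mod_cast Nat.zero_le n
  exact add_nonneg this zero_le_one

theorem ratio_le (W : EReal) (a b : ℝ) (n : ℕ) (h : W ≤ (a : EReal))
    (hab : a + 1 ≤ b * ((n : ℝ) + 1)) :
    (W + 1) / ((n : EReal) + 1) ≤ (b : EReal) := by
  have h1 : (W + 1) / ((n : EReal) + 1) ≤ ((a : EReal) + 1) / ((n : EReal) + 1) :=
    EReal.div_le_div_right_of_nonneg (n_nonneg n) (add_le_add_left h 1)
  refine h1.trans ?_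
  rw [ratio_coe]
  have h2 : (a + 1) / ((n : ℝ) + 1) ≤ b := by
    rw [div_le_iff₀ (by positivity)]
    exact hab
  exact_mod_cast h2

theorem le_ratio (W : EReal) (a b : ℝ) (n : ℕ) (h : (a : EReal) ≤ W)
    (hab : b * ((n : ℝ) + 1) ≤ a + 1) :
    (b : EReal) ≤ (W + 1) / ((n : EReal) + 1) := by
  have h1 : ((a : EReal) + 1) / ((n : EReal) + 1) ≤ (W + 1) / ((n : EReal) + 1) :=
    EReal.div_le_div_right_of_nonneg (n_nonneg n) (add_le_add_left h 1)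
  refine le_trans ?_ h1
  rw [ratio_coe]
  have h2 : b ≤ (a + 1) / ((n : ℝ) + 1) := by
    rw [le_div_iff₀ (by positivity)]
    exact hab
  exact_mod_cast h2

theorem wM_eq (ξ : ℝ) (n : ℕ) : wMahler ξ n =
    sSup {W : EReal | ∃ w : ℝ, W = (w : EReal) ∧ w ∈ Pool.Agent.Helper35.WSet ξ n} := by
  unfold wMahler
  congr 1
  ext W
  simp only [Set.mem_ofPred_eq]
  refine exists_congr (fun w => and_congr_right (fun _ => ?_))
  unfold Pool.Agent.Helper35.WSet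
  simp only [Set.mem_ofPred_eq]
  have : {P : ℤ[X] | P.natDegree ≤ n ∧ 0 < |aeval ξ P| ∧
      |aeval ξ P| ≤ (height P : ℝ) ^ (-w)} = {P : ℤ[X] | P ≠ 0 ∧ P.natDegree ≤ n ∧
      0 < |aeval ξ P| ∧ |aeval ξ P| ≤ (Pool.Agent.Helper35.ht P : ℝ) ^ (-w)} := by
    ext P
    simp only [Set.mem_ofPred_eq]
    constructor
    · rintro ⟨h1, h2, h3⟩
      refine ⟨?_, h1, h2, h3⟩
      rintro rfl
      simp at h2
    · rintro ⟨_, h1, h2, h3⟩
      exact ⟨h1, h2, h3⟩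
  rw [this]

theorem wK_eq (ξ : ℝ) (n : ℕ) : wKoksma ξ n =
    sSup {W : EReal | ∃ w : ℝ, W = (w : EReal) ∧ w ∈ Pool.Agent.Helper35.SSet ξ n} := rfl

theorem sSup_le_of (S : Set ℝ) (a : ℝ) (h : ∀ w ∈ S, w ≤ a) :
    sSup {W : EReal | ∃ w : ℝ, W = (w : EReal) ∧ w ∈ S} ≤ (a : EReal) := by
  apply sSup_le
  rintro W ⟨w, rfl, hw⟩
  exact_mod_cast h w hw

theorem le_sSup_of (S : Set ℝ) (a : ℝ) (h : ∀ w, w < a → w ∈ S) :
    (a : EReal) ≤ sSup {W : EReal | ∃ w : ℝ, W = (w : EReal) ∧ w ∈ S} := by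
  apply le_of_forall_lt
  intro c hc
  obtain ⟨w, hw1, hw2⟩ := EReal.lt_iff_exists_real_btwn.mp hc
  have hw3 : w < a := by exact_mod_cast hw2
  exact lt_of_lt_of_le hw1 (le_sSup ⟨w, rfl, h w hw3⟩)

theorem type_le (W : ℕ → EReal) (b : ℕ)
    (h : ∀ n : ℕ, W n ≤ (((b * (n + 1) : ℕ) : ℝ) : EReal)) :
    limsup (fun n : ℕ => (W n + 1) / ((n : EReal) + 1)) atTop ≤ (((b : ℝ) + 1 : ℝ) : EReal) := by
  apply limsup_le_of_le
  · isBoundedDefault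
  · filter_upwards with n
    apply ratio_le _ _ _ n (h n)
    push_cast
    have : (0 : ℝ) ≤ n := Nat.cast_nonneg n
    linarith

theorem isS (ξ : ℝ) (b : ℕ) (hne : Transcendental ℚ ξ)
    (h : ∀ n : ℕ, wMahler ξ n ≤ (((b * (n + 1) : ℕ) : ℝ) : EReal)) : IsSNumber ξ := by
  refine ⟨hne, lt_of_le_of_lt (b := (((2 * b : ℕ) : ℝ) : EReal)) ?_ (EReal.coe_lt_top _)⟩
  apply limsup_le_of_le
  · isBoundedDefault
  · filter_upwards [eventually_ge_atTop 1] with n hn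
    have h0 : (0 : EReal) ≤ (n : EReal) := by exact_mod_cast Nat.zero_le n
    have h1 : wMahler ξ n / (n : EReal) ≤ ((((b * (n + 1) : ℕ) : ℝ) : EReal)) / (n : EReal) :=
      EReal.div_le_div_right_of_nonneg h0 (h n)
    refine h1.trans ?_
    have e : ((((b * (n + 1) : ℕ) : ℝ) : EReal)) / (n : EReal) =
        ((((b * (n + 1) : ℕ) : ℝ) / (n : ℝ) : ℝ) : EReal) := by
      rw [EReal.coe_div]; rfl
    rw [e]
    have hnr : (1 : ℝ) ≤ n := by exact_mod_cast hn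
    have h3 : ((b * (n + 1) : ℕ) : ℝ) / (n : ℝ) ≤ ((2 * b : ℕ) : ℝ) := by
      rw [div_le_iff₀ (by linarith)]
      have : b * (n + 1) ≤ 2 * b * n := by
        have : b * 1 ≤ b * n := Nat.mul_le_mul_left _ hn
        calc b * (n + 1) = b * n + b * 1 := by ring
          _ ≤ b * n + b * n := by omega
          _ = 2 * b * n := by ring
      exact_mod_cast this
    exact_mod_cast h3

theorem le_type (W : ℕ → EReal)
    (h : ∀ i : ℕ, (((200 * (2 * i + 2) : ℕ) : ℝ) - 1 : ℝ) ≤ W (2 * i + 1)) :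
    ((200 : ℝ) : EReal) ≤ limsup (fun n : ℕ => (W n + 1) / ((n : EReal) + 1)) atTop := by
  apply le_limsup_of_frequently_le
  · rw [frequently_atTop]
    intro a
    refine ⟨2 * a + 1, by omega, ?_⟩
    apply le_ratio _ _ _ _ (h a)
    push_cast
    linarith
  · isBoundedDefault

theorem transc (ξ : ℝ) (hne : ∀ P : ℤ[X], P ≠ 0 → aeval ξ P ≠ 0) : Transcendental ℚ ξ := by
  intro hc
  rw [← IsFractionRing.isAlgebraic_iff ℤ ℚ ℝ] at hc
  obtain ⟨P, hP, h0⟩ := hc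
  exact hne P hP h0

/-- There is a real S-number `ξ` with `t(ξ²) < t(ξ)` and `t^*(ξ²) < t^*(ξ)`. -/
theorem result : ∃ ξ : ℝ, IsSNumber ξ ∧ IsSNumber (ξ ^ 2) ∧
    mahlerType (ξ ^ 2) < mahlerType ξ ∧ mahlerType ξ < ⊤ ∧
    koksmaType (ξ ^ 2) < koksmaType ξ ∧ koksmaType ξ < ⊤ := by
  obtain ⟨e, he⟩ : ∃ e : ℕ → ℕ, e = fun k => 2 * (Nat.unpair k).1 := ⟨_, rfl⟩
  obtain ⟨V, hVe⟩ : ∃ V : ℕ → ℕ, ∀ j, V j = 200 * (j + 2) := ⟨fun j => 200 * (j + 2), fun _ => rfl⟩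
  obtain ⟨Mq, hMq⟩ : ∃ Mq : ℕ → ℕ, Pool.Agent.Helper35.Demand e Mq := ⟨_, fun k => le_rfl⟩
  have hV : ∀ j, 22 ≤ V j := fun j => by rw [hVe]; omega
  have hodd : ∀ k, Odd (e k + 1) := by
    intro k
    rw [he]
    exact ⟨(Nat.unpair k).1, rfl⟩
  have hinf : ∀ i K : ℕ, ∃ k, K ≤ k ∧ e k = 2 * i := by
    intro i K
    refine ⟨Nat.pair i K, Nat.right_le_pair i K, ?_⟩
    simp [he]
  obtain ⟨X⟩ := Pool.Agent.Helper35.sdata_exists e V Mq hV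
  have hb1 : ∀ n : ℕ, ∃ c : ℝ, 0 < c ∧ ∀ P : ℤ[X], P ≠ 0 → P.natDegree ≤ n →
      c ≤ |aeval X.ξ P| * (Pool.Agent.Helper35.ht P : ℝ) ^ (200 * (n + 1)) := by
    intro n
    exact X.bound_all hMq hV n _ (by omega) (fun j hj => by rw [hVe]; omega)
  have hb2 : ∀ n : ℕ, ∃ c : ℝ, 0 < c ∧ ∀ P : ℤ[X], P ≠ 0 → P.natDegree ≤ n →
      c ≤ |aeval (X.ξ ^ 2) P| * (Pool.Agent.Helper35.ht P : ℝ) ^ (121 * (n + 1)) :=
    fun n => X.bound_sq hodd hMq hV hVe n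
  have h0 := X.ξ0
  have h1 := X.ξ1
  have h0' : 0 ≤ X.ξ ^ 2 := by positivity
  have h1' : X.ξ ^ 2 ≤ 1 := pow_le_one₀ h0 h1
  have hne1 : ∀ P : ℤ[X], P ≠ 0 → aeval X.ξ P ≠ 0 := by
    intro P hP hz
    obtain ⟨c, hc, hcc⟩ := hb1 P.natDegree
    have := hcc P hP le_rfl
    rw [hz, abs_zero, zero_mul] at this
    linarith
  have hne2 : ∀ P : ℤ[X], P ≠ 0 → aeval (X.ξ ^ 2) P ≠ 0 := by
    intro P hP hz
    obtain ⟨c, hc, hcc⟩ := hb2 P.natDegree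
    have := hcc P hP le_rfl
    rw [hz, abs_zero, zero_mul] at this
    linarith
  have hM1 : ∀ n : ℕ, wMahler X.ξ n ≤ (((200 * (n + 1) : ℕ) : ℝ) : EReal) := by
    intro n
    obtain ⟨c, hc, hcc⟩ := hb1 n
    rw [wM_eq]
    exact sSup_le_of _ _ (fun w hw => Pool.Agent.Helper35.WSet_le X.ξ n _ c hc hcc w hw)
  have hM2 : ∀ n : ℕ, wMahler (X.ξ ^ 2) n ≤ (((121 * (n + 1) : ℕ) : ℝ) : EReal) := by
    intro n
    obtain ⟨c, hc, hcc⟩ := hb2 n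
    rw [wM_eq]
    exact sSup_le_of _ _ (fun w hw => Pool.Agent.Helper35.WSet_le (X.ξ ^ 2) n _ c hc hcc w hw)
  have hK1 : ∀ n : ℕ, wKoksma X.ξ n ≤ (((200 * (n + 1) : ℕ) : ℝ) : EReal) := by
    intro n
    obtain ⟨c, hc, hcc⟩ := hb1 n
    rw [wK_eq]
    exact sSup_le_of _ _ (fun w hw => Pool.Agent.Helper35.SSet_le X.ξ h0 h1 n _ c hc hcc w hw)
  have hK2 : ∀ n : ℕ, wKoksma (X.ξ ^ 2) n ≤ (((121 * (n + 1) : ℕ) : ℝ) : EReal) := by
    intro n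
    obtain ⟨c, hc, hcc⟩ := hb2 n
    rw [wK_eq]
    exact sSup_le_of _ _ (fun w hw =>
      Pool.Agent.Helper35.SSet_le (X.ξ ^ 2) h0' h1' n _ c hc hcc w hw)
  have hML : ∀ i : ℕ, (((200 * (2 * i + 2) : ℕ) : ℝ) - 1 : ℝ) ≤ wMahler X.ξ (2 * i + 1) := by
    intro i
    rw [wM_eq]
    apply le_sSup_of
    intro w hw
    apply X.mem_WSet hMq hV (2 * i) (hinf i)
    rw [hVe]
    exact hw
  have hKL : ∀ i : ℕ, (((200 * (2 * i + 2) : ℕ) : ℝ) - 1 : ℝ) ≤ wKoksma X.ξ (2 * i + 1) := by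
    intro i
    rw [wK_eq]
    apply le_sSup_of
    intro w hw
    apply X.mem_SSet hMq hV (2 * i) (hinf i)
    rw [hVe]
    exact hw
  have hlt : (((121 : ℕ) : ℝ) + 1 : ℝ) < (200 : ℝ) := by norm_num
  have hltE : ((((121 : ℕ) : ℝ) + 1 : ℝ) : EReal) < ((200 : ℝ) : EReal) := by
    exact_mod_cast hlt
  refine ⟨X.ξ, isS _ 200 (transc _ hne1) hM1, isS _ 121 (transc _ hne2) hM2, ?_, ?_, ?_, ?_⟩
  · exact lt_of_le_of_lt (type_le _ 121 hM2) (lt_of_lt_of_le hltE (le_type _ hML))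
  · exact lt_of_le_of_lt (type_le _ 200 hM1) (EReal.coe_lt_top _)
  · exact lt_of_le_of_lt (type_le _ 121 hK2) (lt_of_lt_of_le hltE (le_type _ hKL))
  · exact lt_of_le_of_lt (type_le _ 200 hK1) (EReal.coe_lt_top _)

end Pool.Agent.Results.MP_ac14a7_nt.SquareType
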